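import Mathlib
import Pool.Agent.R723.SubLatChar

/-!
# Finite abelian groups whose subgroup lattice embeds into no subspace lattice

For every composite number `m` the subgroup lattice of the finite abelian group `(ℤ/m)³` has no
lattice embedding into the lattice of subspaces of a vector space over a division ring, whatever the
division ring and the vector space are.  For instance `m = 4` gives a finite abelian `2`-group and
`m = 6` gives a finite abelian group of square-free exponent.  Lattice embeddings are injective maps
which preserve binary joins and binary meets; they need not preserve the least or greatest element.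
-/

namespace Pool.Agent.Results.MP_0a2dc5_al.FiniteNonEmbeddable

universe u v

/-- For every composite `m ≥ 2`, the group `(ℤ/m)³` is a finite abelian group, and no injective map
from its lattice of subgroups to the lattice of subspaces of a vector space over a division ring
preserves binary joins and binary meets. -/
theorem result (m : ℕ) (hm : 2 ≤ m) (hmp : ¬ m.Prime) :
    Finite (Fin 3 → ZMod m) ∧
      ∀ (D : Type u) [DivisionRing D] (V : Type v) [AddCommGroup V] [Module D V]
        (f : LatticeHom (AddSubgroup (Fin 3 → ZMod m)) (Submodule D V)),
        ¬ Function.Injective f := by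
  haveI : NeZero m := ⟨by omega⟩
  haveI : Fact (1 < m) := ⟨by omega⟩
  refine ⟨inferInstance, ?_⟩
  intro D _ V _ _ f hf
  -- the subgroup lattice is the lattice of `ZMod m`-submodules
  let e : Submodule (ZMod m) (Fin 3 → ZMod m) ≃o AddSubgroup (Fin 3 → ZMod m) :=
    (AddSubgroup.toZModSubmodule (n := m) (M := Fin 3 → ZMod m)).symm
  let g : LatticeHom (Submodule (ZMod m) (Fin 3 → ZMod m)) (Submodule D V) :=
    { toFun := fun W => f (e W)
      map_sup' := fun a b => by rw [map_sup, map_sup]
      map_inf' := fun a b => by rw [map_inf, map_inf] }
  have hg : Function.Injective g := fun a b h => e.injective (hf h)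
  have hchar := Pool.Agent.R723.SubLat.char_eq g hg
  have hmD : (m : D) = 0 := (hchar m).mp (by simp)
  -- the characteristic of `D` is a prime divisor of `m`
  obtain ⟨p, hp⟩ := CharP.exists D
  have hpm : p ∣ m := (CharP.cast_eq_zero_iff D p m).mp hmD
  have hp0 : p ≠ 0 := by
    rintro rfl
    have := Nat.eq_zero_of_zero_dvd hpm
    omega
  have hpp : p.Prime := (CharP.char_is_prime_or_zero D p).resolve_right hp0
  have hpz : ((p : ℕ) : ZMod m) = 0 := (hchar p).mpr (CharP.cast_eq_zero D p)
  have hmp' : m ∣ p := (ZMod.natCast_eq_zero_iff p m).mp hpz
  have : m = p := Nat.dvd_antisymm hmp' hpm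
  exact hmp (this ▸ hpp)

end Pool.Agent.Results.MP_0a2dc5_al.FiniteNonEmbeddable
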